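import Pool.Agent.Helper5.WD.Stmts

/-! Row GSTW of the sheet WD: regularity of the numbers of colourings (as STW, with `GD`). -/

set_option autoImplicit false

open Finset Pool.Agent.Helper8.UN Pool.Agent.Helper5.FV

namespace Pool.Agent.Helper5.WD

namespace GSTW48

theorem sta_step1 (a rl rk P1 P2 V1 V2 q : ℝ) (hrl0 : 0 < rl) (hlow : rl * (1 + a) ≤ rk)
    (hq : 0 ≤ q) (hP : 0 ≤ P1) (hV : 0 ≤ V1) (ih : q * (rk * P1 * V1) ≤ rl * P2 * V2) :
    q * (1 + a) * (P1 * V1) ≤ P2 * V2 := by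
  refine le_of_mul_le_mul_left ?_ hrl0
  have h1 : 0 ≤ q * (P1 * V1) := by positivity
  calc rl * (q * (1 + a) * (P1 * V1)) = (rl * (1 + a)) * (q * (P1 * V1)) := by ring
    _ ≤ rk * (q * (P1 * V1)) := mul_le_mul_of_nonneg_right hlow h1
    _ = q * (rk * P1 * V1) := by ring
    _ ≤ rl * P2 * V2 := ih
    _ = rl * (P2 * V2) := by ring

theorem sta_step2 (a rl rk P1 P2 V1 V2 q : ℝ) (hrl0 : 0 < rl) (hup : rk ≤ rl * (1 + a))
    (hq : 0 ≤ q) (hP : 0 ≤ P1) (hV : 0 ≤ V1) (ih : rl * P2 * V2 ≤ q * (rk * P1 * V1)) :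
    P2 * V2 ≤ q * (1 + a) * (P1 * V1) := by
  refine le_of_mul_le_mul_left ?_ hrl0
  have h1 : 0 ≤ q * (P1 * V1) := by positivity
  calc rl * (P2 * V2) = rl * P2 * V2 := by ring
    _ ≤ q * (rk * P1 * V1) := ih
    _ = rk * (q * (P1 * V1)) := by ring
    _ ≤ (rl * (1 + a)) * (q * (P1 * V1)) := mul_le_mul_of_nonneg_right hup h1
    _ = rl * (q * (1 + a) * (P1 * V1)) := by ring

theorem sta_low1 (k rl rk : ℝ) (hk0 : 0 < k) (hrlk : rl ≤ k) (h5 : rl + 999 / 1000 ≤ rk) :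
    rl * (1 + 999 / 1000 / k) ≤ rk := by
  have h4 : rl * (999 / 1000 / k) ≤ 999 / 1000 := by
    rw [mul_div_assoc', div_le_iff₀ hk0]
    nlinarith
  calc rl * (1 + 999 / 1000 / k) = rl + rl * (999 / 1000 / k) := by ring
    _ ≤ rk := by linarith

theorem sta_up1 (x rl rk : ℝ) (hx : 0 < x) (hrlx : x ≤ rl) (h5 : rk ≤ rl + 1001 / 1000) :
    rk ≤ rl * (1 + 1001 / 1000 / x) := by
  have h4 : 1001 / 1000 ≤ rl * (1001 / 1000 / x) := by
    rw [mul_div_assoc', le_div_iff₀ hx]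
    nlinarith
  calc rk ≤ rl + rl * (1001 / 1000 / x) := by linarith
    _ = rl * (1 + 1001 / 1000 / x) := by ring

/-- comparison of the numbers of colourings with `k - 1` and with `k` colours -/
theorem sta_cmp (hRAT : ST_GRAT) {n D k : ℕ} {E : Finset (Finset (Fin n))} (hE : Two E)
    (hBD : GD E D (k - 1)) (hDk : D + 1 < k)
    (hh1 : ∀ (W : Finset (Fin n)) (v : Fin n), v ∈ W → |hh E W k v - hh E W (k - 1) v| ≤ 1 / 1000)
    (V B : Finset (Fin n)) : B ⊆ V →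
    (1 + 999 / 1000 / (k : ℝ)) ^ B.card * ((PP E (V \ B) k : ℝ) * PP E V (k - 1)) ≤
      (PP E (V \ B) (k - 1) : ℝ) * PP E V k ∧
    (PP E (V \ B) (k - 1) : ℝ) * PP E V k ≤
      (1 + 1001 / 1000 / ((k : ℝ) - 1 - D)) ^ B.card * ((PP E (V \ B) k : ℝ) * PP E V (k - 1)) := by
  classical
  have hk1 : ((k - 1 : ℕ) : ℝ) = (k : ℝ) - 1 := by
    rw [Nat.cast_sub (by omega)]
    simp
  have hk0 : (0 : ℝ) < k := by
    have : 0 < k := by omega
    exact_mod_cast this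
  have hDk' : (D : ℝ) + 1 < k := by exact_mod_cast hDk
  have hDn : (0 : ℝ) ≤ D := Nat.cast_nonneg D
  refine Finset.induction_on B ?_ ?_
  · intro _
    simp only [Finset.card_empty, pow_zero, one_mul, Finset.sdiff_empty]
    constructor
    · exact le_of_eq (mul_comm _ _)
    · exact le_of_eq (mul_comm _ _)
  · intro v B hvB ih hsub
    obtain ⟨ih1, ih2⟩ := ih ((Finset.subset_insert v B).trans hsub)
    have hvV : v ∈ V := hsub (Finset.mem_insert_self v B)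
    have hvU : v ∈ V \ B := Finset.mem_sdiff.2 ⟨hvV, hvB⟩
    have herase : V \ insert v B = (V \ B).erase v := by
      rw [Finset.sdiff_insert]
    rw [herase, Finset.card_insert_of_notMem hvB]
    obtain ⟨e1, e1a, e1b, -⟩ := hRAT n D (k - 1) k E (V \ B) v hE hBD (by omega) (by omega) hvU
    obtain ⟨e2, e2a, e2b, -⟩ := hRAT n D (k - 1) (k - 1) E (V \ B) v hE hBD le_rfl (by omega) hvU
    have h3 := abs_le.1 (hh1 (V \ B) v hvU)
    rw [e1, e2] at ih1 ih2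
    rw [hk1] at ih1 ih2
    have hrl0 : 0 < (k : ℝ) - 1 - hh E (V \ B) (k - 1) v := by linarith
    have hlow := sta_low1 (k : ℝ) ((k : ℝ) - 1 - hh E (V \ B) (k - 1) v)
      ((k : ℝ) - hh E (V \ B) k v) hk0 (by linarith) (by linarith [h3.2])
    have hup := sta_up1 ((k : ℝ) - 1 - D) ((k : ℝ) - 1 - hh E (V \ B) (k - 1) v)
      ((k : ℝ) - hh E (V \ B) k v) (by linarith) (by linarith) (by linarith [h3.1])
    have hq1 : (0 : ℝ) ≤ (1 + 999 / 1000 / (k : ℝ)) ^ B.card := by positivity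
    have hDpos : 0 < (k : ℝ) - 1 - D := by linarith
    have hq2 : (0 : ℝ) ≤ (1 + 1001 / 1000 / ((k : ℝ) - 1 - D)) ^ B.card := by positivity
    constructor
    · rw [pow_succ]
      exact sta_step1 _ _ _ _ _ _ _ _ hrl0 hlow hq1 (Nat.cast_nonneg _) (Nat.cast_nonneg _) ih1
    · rw [pow_succ]
      exact sta_step2 _ _ _ _ _ _ _ _ hrl0 hup hq2 (Nat.cast_nonneg _) (Nat.cast_nonneg _) ih2

theorem stw_low (hSYM : ST_SYM) (hF2 : ST_F2) {n k : ℕ} {E : Finset (Finset (Fin n))}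
    (W : Finset (Fin n)) (hE : Two E) (hk : 1 ≤ k)
    (hcmp : ∀ B : Finset (Fin n), B ⊆ W →
      (1 + 999 / 1000 / (k : ℝ)) ^ B.card * ((PP E (W \ B) k : ℝ) * PP E W (k - 1)) ≤
      (PP E (W \ B) (k - 1) : ℝ) * PP E W k) :
    (1 + 999 / 1000 * ((W.card : ℝ) / ((k : ℝ) * (k + 1)))) *
      ((PP E W (k - 1) : ℝ) * PP E W (k + 1)) ≤ (PP E W k : ℝ) ^ 2 := by
  classical
  have hk0 : (0 : ℝ) < k := by exact_mod_cast hk
  obtain ⟨f1, -⟩ := hF2 n (k - 1) E W hE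
  obtain ⟨f2, -⟩ := hF2 n k E W hE
  have f3 := hSYM n k E W hE
  have hkk : k - 1 + 1 = k := by omega
  rw [hkk] at f1
  have f1' : (PP E W k : ℝ) = ∑ B ∈ W.powerset.filter
      (fun B => Pool.Agent.Helper89.UB.Al E B), (PP E (W \ B) (k - 1) : ℝ) := by
    rw [f1]; push_cast; rfl
  have f2' : (PP E W (k + 1) : ℝ) = ∑ B ∈ W.powerset.filter
      (fun B => Pool.Agent.Helper89.UB.Al E B), (PP E (W \ B) k : ℝ) := by
    rw [f2]; push_cast; rfl
  have f3' : ((k : ℝ) + 1) * ∑ B ∈ W.powerset.filter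
      (fun B => Pool.Agent.Helper89.UB.Al E B), ((B.card : ℝ) * (PP E (W \ B) k : ℝ)) =
      W.card * PP E W (k + 1) := by
    have h := congrArg (Nat.cast : ℕ → ℝ) f3
    push_cast at h
    exact h
  set T : Finset (Finset (Fin n)) := W.powerset.filter
      (fun B => Pool.Agent.Helper89.UB.Al E B) with hT
  have hsum : ∑ B ∈ T, ((B.card : ℝ) * (PP E (W \ B) k : ℝ)) =
      W.card * PP E W (k + 1) / ((k : ℝ) + 1) := by
    rw [eq_div_iff (by positivity), mul_comm]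
    exact f3'
  have hV1 : (0 : ℝ) ≤ PP E W (k - 1) := Nat.cast_nonneg _
  calc (1 + 999 / 1000 * ((W.card : ℝ) / ((k : ℝ) * (k + 1)))) *
      ((PP E W (k - 1) : ℝ) * PP E W (k + 1))
      = PP E W (k - 1) * ((PP E W (k + 1) : ℝ) + 999 / 1000 / (k : ℝ) *
          (W.card * PP E W (k + 1) / ((k : ℝ) + 1))) := by
        field_simp
    _ = PP E W (k - 1) * ((∑ B ∈ T, (PP E (W \ B) k : ℝ)) + 999 / 1000 / (k : ℝ) *
          ∑ B ∈ T, ((B.card : ℝ) * (PP E (W \ B) k : ℝ))) := by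
        rw [hsum, f2']
    _ = ∑ B ∈ T, (1 + B.card * (999 / 1000 / (k : ℝ))) *
          ((PP E (W \ B) k : ℝ) * PP E W (k - 1)) := by
        rw [Finset.mul_sum (a := 999 / 1000 / (k : ℝ)), ← Finset.sum_add_distrib, Finset.mul_sum]
        refine Finset.sum_congr rfl fun B _ => ?_
        ring
    _ ≤ ∑ B ∈ T, (1 + 999 / 1000 / (k : ℝ)) ^ B.card *
          ((PP E (W \ B) k : ℝ) * PP E W (k - 1)) := by
        refine Finset.sum_le_sum fun B _ => ?_
        refine mul_le_mul_of_nonneg_right ?_ (mul_nonneg (Nat.cast_nonneg _) (Nat.cast_nonneg _))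
        exact one_add_mul_le_pow (by
          have : (0 : ℝ) ≤ 999 / 1000 / (k : ℝ) := by positivity
          linarith) _
    _ ≤ ∑ B ∈ T, (PP E (W \ B) (k - 1) : ℝ) * PP E W k :=
        Finset.sum_le_sum fun B hB => hcmp B (Finset.mem_powerset.1 (Finset.mem_filter.1 hB).1)
    _ = (PP E W k : ℝ) ^ 2 := by
        rw [← Finset.sum_mul, ← f1', sq]

theorem stw_up (hEXM : ST_GEXM) (hF2 : ST_F2) {n D k : ℕ} {E : Finset (Finset (Fin n))}
    (W : Finset (Fin n)) (hE : Two E) (hBD : GD E D (k - 1)) (hD : 1000 * D ≤ k) (hk : 10000 ≤ k)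
    (hcmp : ∀ B : Finset (Fin n), B ⊆ W → (PP E (W \ B) (k - 1) : ℝ) * PP E W k ≤
      (1 + 1001 / 1000 / ((k : ℝ) - 1 - D)) ^ B.card *
        ((PP E (W \ B) k : ℝ) * PP E W (k - 1))) :
    (PP E W k : ℝ) ^ 2 ≤ Real.exp (1004 / 1000 * (n / (k : ℝ) ^ 2)) *
      ((PP E W (k - 1) : ℝ) * PP E W (k + 1)) := by
  classical
  have hk0 : (10000 : ℝ) ≤ k := by exact_mod_cast hk
  have hD' : 1000 * (D : ℝ) ≤ k := by exact_mod_cast hD
  have hD0 : (0 : ℝ) ≤ D := Nat.cast_nonneg D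
  obtain ⟨f1, -⟩ := hF2 n (k - 1) E W hE
  have hkk : k - 1 + 1 = k := by omega
  rw [hkk] at f1
  have f1' : (PP E W k : ℝ) = ∑ B ∈ W.powerset.filter
      (fun B => Pool.Agent.Helper89.UB.Al E B), (PP E (W \ B) (k - 1) : ℝ) := by
    rw [f1]; push_cast; rfl
  have hDpos : 0 < (k : ℝ) - 1 - D := by linarith
  have hDpos' : 0 < (k : ℝ) + 1 - D := by linarith
  set a : ℝ := 1001 / 1000 / ((k : ℝ) - 1 - D) with ha
  have ha0 : 0 ≤ a := by positivity
  have hx := hEXM n D (k - 1) k E W a hE hBD (by omega) (by omega) ha0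
  set T : Finset (Finset (Fin n)) := W.powerset.filter
      (fun B => Pool.Agent.Helper89.UB.Al E B) with hT
  have hcard : (W.card : ℝ) ≤ n := by
    have := Finset.card_le_univ W
    rw [Fintype.card_fin] at this
    exact_mod_cast this
  have hexp : (1 + a / ((k : ℝ) + 1 - D)) ^ W.card ≤ Real.exp (1004 / 1000 * (n / (k : ℝ) ^ 2)) := by
    have h1 : 1 + a / ((k : ℝ) + 1 - D) ≤ Real.exp (a / ((k : ℝ) + 1 - D)) := by
      rw [add_comm]; exact Real.add_one_le_exp _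
    have h2 : (1 + a / ((k : ℝ) + 1 - D)) ^ W.card ≤ Real.exp (a / ((k : ℝ) + 1 - D)) ^ W.card :=
      pow_le_pow_left₀ (by positivity) h1 _
    refine h2.trans ?_
    rw [← Real.exp_nat_mul, Real.exp_le_exp]
    have h3 : a / ((k : ℝ) + 1 - D) ≤ 1004 / 1000 / (k : ℝ) ^ 2 := by
      rw [ha, div_div, div_le_div_iff₀ (by positivity) (by positivity)]
      have h4 : (k : ℝ) - D ≥ 999 / 1000 * k := by linarith
      have h5 : ((k : ℝ) - D) ^ 2 ≥ (999 / 1000 * k) ^ 2 := by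
        exact pow_le_pow_left₀ (by positivity) h4 2
      nlinarith
    calc (W.card : ℝ) * (a / ((k : ℝ) + 1 - D)) ≤ n * (1004 / 1000 / (k : ℝ) ^ 2) :=
          mul_le_mul hcard h3 (by positivity) (Nat.cast_nonneg n)
      _ = 1004 / 1000 * (n / (k : ℝ) ^ 2) := by ring
  have hV1 : (0 : ℝ) ≤ PP E W (k - 1) := Nat.cast_nonneg _
  have hV3 : (0 : ℝ) ≤ PP E W (k + 1) := Nat.cast_nonneg _
  calc (PP E W k : ℝ) ^ 2 = ∑ B ∈ T, (PP E (W \ B) (k - 1) : ℝ) * PP E W k := by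
        rw [← Finset.sum_mul, ← f1', sq]
    _ ≤ ∑ B ∈ T, (1 + a) ^ B.card * ((PP E (W \ B) k : ℝ) * PP E W (k - 1)) :=
        Finset.sum_le_sum fun B hB => hcmp B (Finset.mem_powerset.1 (Finset.mem_filter.1 hB).1)
    _ = PP E W (k - 1) * ∑ B ∈ T, (PP E (W \ B) k : ℝ) * (1 + a) ^ B.card := by
        rw [Finset.mul_sum]
        refine Finset.sum_congr rfl fun B _ => ?_
        ring
    _ ≤ PP E W (k - 1) * (PP E W (k + 1) * (1 + a / ((k : ℝ) + 1 - D)) ^ W.card) :=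
        mul_le_mul_of_nonneg_left hx hV1
    _ ≤ PP E W (k - 1) * (PP E W (k + 1) *
          Real.exp (1004 / 1000 * (n / (k : ℝ) ^ 2))) :=
        mul_le_mul_of_nonneg_left (mul_le_mul_of_nonneg_left hexp hV3) hV1
    _ = _ := by ring

end GSTW48

open GSTW48 in
theorem st_GSTW (hHDF : ST_GHDF) (hRAT : ST_GRAT) (hEXM : ST_GEXM) (hSYM : ST_SYM) (hF2 : ST_F2)
    (hPOS : ST_GPOS) (hRGM : ST_GRGM) : ST_GSTW := by
  obtain ⟨n1, h1⟩ := hHDF
  obtain ⟨n2, h2⟩ := hRGM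
  refine ⟨max n1 n2, fun n hn D0 r k E W hReg hW hk1 hk2 => ?_⟩
  have hn1 : n1 ≤ n := (le_max_left _ _).trans hn
  have hn2 : n2 ≤ n := (le_max_right _ _).trans hn
  have hnl : (0 : ℝ) ≤ (n : ℝ) / Real.log n :=
    div_nonneg (Nat.cast_nonneg n) (Real.log_natCast_nonneg n)
  obtain ⟨hr4, hD, -, hk, -, -, -⟩ := h2 n hn2 D0 r k E hReg (by linarith)
  have hkR : (10000 : ℝ) ≤ k := by exact_mod_cast hk
  have hkm : ((k - 1 : ℕ) : ℝ) = (k : ℝ) - 1 := by
    rw [Nat.cast_sub (by omega)]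
    simp
  obtain ⟨-, -, -, -, -, hBD, -⟩ := h2 n hn2 D0 r (k - 1) E hReg (by rw [hkm]; linarith)
  have hE := hReg.two
  have hcmp := fun (B : Finset (Fin n)) (hB : B ⊆ W) => sta_cmp hRAT hE hBD
    (by omega : (D0 + 1) + 1 < k)
    (fun W v hv => h1 n hn1 D0 r k E W v hReg (by linarith) hv) W B hB
  have hp1 := (hPOS n (D0 + 1) (k - 1) (k - 1) E W hE hBD le_rfl (by omega)).1
  have hp2 := (hPOS n (D0 + 1) (k - 1) k E W hE hBD (by omega) (by omega)).1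
  have hp3 := (hPOS n (D0 + 1) (k - 1) (k + 1) E W hE hBD (by omega) (by omega)).1
  refine ⟨hp1, hp2, hp3, ?_, ?_⟩
  · exact stw_low hSYM hF2 W hE (by omega) fun B hB => (hcmp B hB).1
  · exact stw_up hEXM hF2 W hE hBD hD hk fun B hB => (hcmp B hB).2

end Pool.Agent.Helper5.WD
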